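import Pool.Agent.Lib.MP_1c24b6_ag.Core
import Pool.Agent.Lib.MP_1c24b6_ag.Topology

/-!
# A cone which is locally connected by analytic paths but is not an `(𝒩,0)`-ats

The graph `T = {(x,y,z) : z⁴ = x⁴ + y⁴, z ≥ 0} ⊂ ℝ³` of the `l⁴` norm is locally connected by
analytic paths, but the semialgebraic homeomorphism `ℝ² → T`, `(x,y) ↦ (x,y,(x⁴+y⁴)^(1/4))` has
no Nash approximation `g : ℝ² → T` with `‖g - f‖ < 1`.
-/

namespace Pool.Agent.Results.MP_1c24b6_ag.ConeNotATS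

open MP1c24b6

open scoped ContDiff
open Filter Topology

/-- Restricting a smooth function of a vector in `Fin 2 → ℝ` to pairs. -/
def toSm (h : (Fin 2 → ℝ) → ℝ) (hh : ContDiff ℝ ∞ h) : Sm :=
  ⟨fun p => h ![p.1, p.2], by
    have h1 : ContDiff ℝ ∞ (fun p : ℝ × ℝ => (![p.1, p.2] : Fin 2 → ℝ)) := by
      rw [contDiff_pi]
      intro i
      fin_cases i
      · exact contDiff_fst
      · exact contDiff_snd
    exact hh.comp h1⟩

lemma toSm_apply (h : (Fin 2 → ℝ) → ℝ) (hh : ContDiff ℝ ∞ h) (p : ℝ × ℝ) :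
    (toSm h hh : ℝ × ℝ → ℝ) p = h ![p.1, p.2] := rfl

lemma abs_lt_of_sqrt_sum {u : Fin 3 → ℝ} {r : ℝ} (h : Real.sqrt (∑ i, u i ^ 2) < r) (i : Fin 3) :
    |u i| < r := by
  refine lt_of_le_of_lt ?_ h
  refine Real.abs_le_sqrt ?_
  exact Finset.single_le_sum (f := fun i => u i ^ 2) (fun j _ => sq_nonneg _) (Finset.mem_univ i)

/-- No Nash map `ℝ² → T` is within distance `1` of the homeomorphism `f4`. -/
theorem no_approx (g : (Fin 2 → ℝ) → (Fin 3 → ℝ)) (hg : NashMap Set.univ T4 g)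
    (happ : ∀ x, Real.sqrt (∑ i, (g x i - f4 x i) ^ 2) < 1) : False := by
  obtain ⟨hmaps, hcomp⟩ := hg
  have hnash : ∀ i, ContDiff ℝ ∞ (fun x => g x i) ∧ SemialgFunOn Set.univ (fun x => g x i) := by
    intro i
    obtain ⟨Ω, h, _, _, hsub, ⟨hsm, hsa⟩, heq⟩ := hcomp i
    have hΩ : Ω = Set.univ := Set.univ_subset_iff.mp hsub
    subst hΩ
    have e : (fun x => g x i) = h := by
      funext x
      exact heq x (Set.mem_univ x)
    rw [e]
    exact ⟨contDiffOn_univ.mp hsm, hsa⟩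
  set a : Sm := toSm _ (hnash 0).1 with ha
  set b : Sm := toSm _ (hnash 1).1 with hb
  set c : Sm := toSm _ (hnash 2).1 with hc
  obtain ⟨Ca, hCa, haC⟩ := algFun_of_semialg (hnash 0).2
  obtain ⟨Cb, hCb, hbC⟩ := algFun_of_semialg (hnash 1).2
  obtain ⟨Cc, hCc, hcC⟩ := algFun_of_semialg (hnash 2).2
  set C : Set ℝ := Ca ∪ Cb ∪ Cc with hCdef
  have hC : C.Countable := (hCa.union hCb).union hCc
  have haC' : AlgFun C (a : ℝ × ℝ → ℝ) := AlgFun.mono haC (fun x hx => Or.inl (Or.inl hx))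
  have hbC' : AlgFun C (b : ℝ × ℝ → ℝ) := AlgFun.mono hbC (fun x hx => Or.inl (Or.inr hx))
  have hcC' : AlgFun C (c : ℝ × ℝ → ℝ) := AlgFun.mono hcC (fun x hx => Or.inr hx)
  have heq : ∀ p : ℝ × ℝ, (a : ℝ × ℝ → ℝ) p ^ 4 + (b : ℝ × ℝ → ℝ) p ^ 4 =
      (c : ℝ × ℝ → ℝ) p ^ 4 := fun p => (hmaps (Set.mem_univ ![p.1, p.2])).1.symm
  have hapx : ∀ (p : ℝ × ℝ), |(a : ℝ × ℝ → ℝ) p - p.1| < 1 ∧ |(b : ℝ × ℝ → ℝ) p - p.2| < 1 ∧
      |(c : ℝ × ℝ → ℝ) p - N4 p.1 p.2| < 1 := by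
    intro p
    have h := happ ![p.1, p.2]
    exact ⟨abs_lt_of_sqrt_sum h 0, abs_lt_of_sqrt_sum h 1, abs_lt_of_sqrt_sum h 2⟩
  have hcpos : ∀ p : ℝ × ℝ, (1 ≤ |p.1| ∨ 1 ≤ |p.2|) → 0 < (c : ℝ × ℝ → ℝ) p := by
    intro p hp
    have h1 := (abs_lt.mp (hapx p).2.2).1
    have h2 : 1 ≤ N4 p.1 p.2 := by
      rcases hp with h | h
      · exact h.trans (abs_le_N4_left _ _)
      · exact h.trans (abs_le_N4_right _ _)
    linarith
  have hfar : ∀ t, ∃ s, (c : ℝ × ℝ → ℝ) (s, t) ≠ 0 := fun t =>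
    ⟨1, (hcpos (1, t) (Or.inl (by simp))).ne'⟩
  -- divisibility of Taylor series
  have hdvd : ∀ p, tay p c ∣ tay p a ∧ tay p c ∣ tay p b := by
    intro p
    refine real_divides _ _ _ ?_ ?_
    · rw [← map_pow, ← map_pow, ← map_pow, ← map_add]
      congr 1
      ext q
      exact heq q
    · intro h0
      obtain ⟨i, hi⟩ := nowhere_flat hcC' hfar p
      apply hi
      rw [sc, h0, map_zero, map_zero]
  -- continuous extensions of the quotients
  set A : Set (ℝ × ℝ) := {q | (c : ℝ × ℝ → ℝ) q ≠ 0} with hA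
  have hdense : Dense A := dense_ne hcC' hfar
  set F : ℝ × ℝ → ℝ := fun q => (a : ℝ × ℝ → ℝ) q / (c : ℝ × ℝ → ℝ) q with hF
  set G : ℝ × ℝ → ℝ := fun q => (b : ℝ × ℝ → ℝ) q / (c : ℝ × ℝ → ℝ) q with hG
  have hFlim : ∀ p, ∃ x, Tendsto F (𝓝[A] p) (𝓝 x) :=
    limit_exists hC haC' hcC' hfar (fun p => (hdvd p).1)
  have hGlim : ∀ p, ∃ x, Tendsto G (𝓝[A] p) (𝓝 x) :=
    limit_exists hC hbC' hcC' hfar (fun p => (hdvd p).2)
  have hXc : Continuous (extendFrom A F) := continuous_extendFrom hdense hFlim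
  have hYc : Continuous (extendFrom A G) := continuous_extendFrom hdense hGlim
  have hFon : ContinuousOn F A := fun q hq =>
    ((Sm.continuous a).continuousAt.div (Sm.continuous c).continuousAt hq).continuousWithinAt
  have hGon : ContinuousOn G A := fun q hq =>
    ((Sm.continuous b).continuousAt.div (Sm.continuous c).continuousAt hq).continuousWithinAt
  have hXA : ∀ q ∈ A, extendFrom A F q = F q := extendFrom_extends hFon
  have hYA : ∀ q ∈ A, extendFrom A G q = G q := extendFrom_extends hGon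
  have hone : ∀ q, extendFrom A F q ^ 4 + extendFrom A G q ^ 4 = 1 := by
    have h1 : (fun q => extendFrom A F q ^ 4 + extendFrom A G q ^ 4) = fun _ => (1 : ℝ) := by
      refine Continuous.ext_on hdense ((hXc.pow 4).add (hYc.pow 4)) continuous_const ?_
      intro q hq
      have hq' : (c : ℝ × ℝ → ℝ) q ≠ 0 := hq
      change extendFrom A F q ^ 4 + extendFrom A G q ^ 4 = 1
      rw [hXA q hq, hYA q hq]
      change ((a : ℝ × ℝ → ℝ) q / (c : ℝ × ℝ → ℝ) q) ^ 4 +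
        ((b : ℝ × ℝ → ℝ) q / (c : ℝ × ℝ → ℝ) q) ^ 4 = 1
      rw [div_pow, div_pow, ← add_div, heq q, div_self (pow_ne_zero 4 hq')]
    exact fun q => congrFun h1 q
  -- the vector field
  let V : ℂ → ℂ := fun z => ((extendFrom A F (z.re, z.im) : ℝ) : ℂ) +
    ((extendFrom A G (z.re, z.im) : ℝ) : ℂ) * Complex.I
  have hVre : ∀ z, (V z).re = extendFrom A F (z.re, z.im) := fun z => by simp [V]
  have hVim : ∀ z, (V z).im = extendFrom A G (z.re, z.im) := fun z => by simp [V]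
  have hpair : Continuous fun z : ℂ => ((z.re, z.im) : ℝ × ℝ) :=
    Complex.continuous_re.prodMk Complex.continuous_im
  have hVc : Continuous V :=
    (Complex.continuous_ofReal.comp (hXc.comp hpair)).add
      ((Complex.continuous_ofReal.comp (hYc.comp hpair)).mul continuous_const)
  refine no_radial_field V hVc ?_ 4 (by norm_num) ?_
  · intro z hz
    have h1 := hone (z.re, z.im)
    rw [← hVre, ← hVim, hz] at h1
    norm_num at h1
  · intro z hz
    set s := z.re with hs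
    set t := z.im with ht
    have hor : 1 ≤ |s| ∨ 1 ≤ |t| := by
      by_contra hcon
      push Not at hcon
      have h1 : s ^ 2 < 1 := by
        rw [← sq_abs]
        nlinarith [hcon.1, abs_nonneg s]
      have h2 : t ^ 2 < 1 := by
        rw [← sq_abs]
        nlinarith [hcon.2, abs_nonneg t]
      linarith
    have hcp := hcpos (s, t) hor
    have hmem : ((s, t) : ℝ × ℝ) ∈ A := hcp.ne'
    rw [hVre, hVim, hXA _ hmem, hYA _ hmem]
    change 0 < s * ((a : ℝ × ℝ → ℝ) (s, t) / (c : ℝ × ℝ → ℝ) (s, t)) +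
      t * ((b : ℝ × ℝ → ℝ) (s, t) / (c : ℝ × ℝ → ℝ) (s, t))
    have e : s * ((a : ℝ × ℝ → ℝ) (s, t) / (c : ℝ × ℝ → ℝ) (s, t)) +
        t * ((b : ℝ × ℝ → ℝ) (s, t) / (c : ℝ × ℝ → ℝ) (s, t)) =
        (s * (a : ℝ × ℝ → ℝ) (s, t) + t * (b : ℝ × ℝ → ℝ) (s, t)) /
          (c : ℝ × ℝ → ℝ) (s, t) := by
      field_simp
    rw [e]
    refine div_pos ?_ hcp
    obtain ⟨h1, h2, _⟩ := hapx (s, t)
    simp only at h1 h2
    have hs4 : |s| ≤ 4 := abs_le_of_sq_le_sq (by nlinarith [sq_nonneg t]) (by norm_num)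
    have ht4 : |t| ≤ 4 := abs_le_of_sq_le_sq (by nlinarith [sq_nonneg s]) (by norm_num)
    have h3 : |s * ((a : ℝ × ℝ → ℝ) (s, t) - s)| ≤ 4 := by
      rw [abs_mul]
      nlinarith [abs_nonneg s, abs_nonneg ((a : ℝ × ℝ → ℝ) (s, t) - s)]
    have h4 : |t * ((b : ℝ × ℝ → ℝ) (s, t) - t)| ≤ 4 := by
      rw [abs_mul]
      nlinarith [abs_nonneg t, abs_nonneg ((b : ℝ × ℝ → ℝ) (s, t) - t)]
    have h5 := (abs_le.mp h3).1
    have h6 := (abs_le.mp h4).1
    nlinarith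

theorem not_isATS_T4 : ¬ IsATS T4 := by
  intro h
  obtain ⟨g, hg, happ⟩ := h 2 (by norm_num) Set.univ Set.univ_nonempty isSemialg_univ
    (isClosed_univ.locallyCompactSpace) f4 f4_mapsTo f4_continuous.continuousOn f4_semialg
    (fun _ => 1) (fun _ _ => one_pos) continuousOn_const (const_semialg 2 1)
  exact no_approx g hg fun x => happ x (Set.mem_univ x)

/-- The non-empty semialgebraic set `T4 = {z⁴ = x⁴ + y⁴, z ≥ 0} ⊂ ℝ³` is locally connected by
analytic paths but is not an `(𝒩,0)`-ats. -/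
theorem result : IsSemialg T4 ∧ T4.Nonempty ∧ LocConnAnalytic T4 ∧ ¬ IsATS T4 :=
  ⟨isSemialg_T4, ⟨f4 0, f4_mapsTo (Set.mem_univ 0)⟩, locConn_T4, not_isATS_T4⟩

end Pool.Agent.Results.MP_1c24b6_ag.ConeNotATS
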